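import Mathlib

/-!
# N2: a nonnegative kernel with compactly supported Fourier transform

`kernel` : there are `k q : ℝ → ℝ` and `B > 0` with `k ≥ 0` continuous, even and of rapid decay,
`q` smooth, even, `0 ≤ q ≤ 1`, `q 0 = 1`, `q = 0` off `(-B, B)`, `∫ k(u) e^{iyu} du = q(y)`
and `k(u) = (1/2π) ∫ q(y) e^{-iyu} dy`.
-/

open MeasureTheory Complex FourierTransform SchwartzMap
open scoped Convolution ContDiff

namespace Pool.Agent.Helper41.HG

noncomputable section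

/-- A smooth even bump function. -/
def bmp : ContDiffBump (0 : ℝ) := ⟨1, 2, one_pos, one_lt_two⟩

/-- The bump as a complex function. -/
def bmpC (x : ℝ) : ℂ := ((bmp x : ℝ) : ℂ)

lemma bmpC_smooth : ContDiff ℝ ∞ bmpC :=
  ofRealCLM.contDiff.comp bmp.contDiff

lemma bmpC_supp : HasCompactSupport bmpC :=
  bmp.hasCompactSupport.comp_left (g := fun x : ℝ => (x : ℂ)) (by simp)

/-- The bump as a Schwartz function. -/
def bs : 𝓢(ℝ, ℂ) := bmpC_supp.toSchwartzMap bmpC_smooth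

lemma bs_apply (x : ℝ) : bs x = ((bmp x : ℝ) : ℂ) := rfl

lemma bs_neg (x : ℝ) : bs (-x) = bs x := by
  rw [bs_apply, bs_apply, bmp.neg]

/-- The autocorrelation. -/
def cs : 𝓢(ℝ, ℂ) := SchwartzMap.convolution (ContinuousLinearMap.mul ℂ ℂ) bs bs

lemma cs_apply (y : ℝ) : cs y = ∫ t : ℝ, bs t * bs (y - t) := by
  unfold cs
  rw [SchwartzMap.convolution_apply]
  rfl

/-- The autocorrelation as a real function. -/
def cr (y : ℝ) : ℝ := ∫ t : ℝ, bmp t * bmp (y - t)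

lemma cs_real (y : ℝ) : cs y = (cr y : ℂ) := by
  have h : ∀ t : ℝ, bs t * bs (y - t) = ((bmp t * bmp (y - t) : ℝ) : ℂ) := by
    intro t
    rw [bs_apply, bs_apply, ofReal_mul]
  rw [cs_apply, cr]
  simp_rw [h]
  exact integral_ofReal

lemma fcs (x : ℝ) : 𝓕 (cs : ℝ → ℂ) x = (𝓕 (bs : ℝ → ℂ) x) ^ 2 := by
  have h2 := Real.fourier_mul_convolution_eq bs.integrable bs.integrable x
  have h3 : (cs : ℝ → ℂ) = (bs : ℝ → ℂ) ⋆[ContinuousLinearMap.mul ℂ ℂ, volume] (bs : ℝ → ℂ) := by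
    funext y
    exact SchwartzMap.convolution_apply _ _ _ y
  rw [h3, h2, pow_two]

/-- The Fourier transform of the bump is real. -/
lemma fbs_real (x : ℝ) : (𝓕 (bs : ℝ → ℂ) x) = (((𝓕 (bs : ℝ → ℂ) x).re : ℝ) : ℂ) := by
  refine (conj_eq_iff_re.mp ?_).symm
  rw [Real.fourier_eq']
  rw [← integral_conj, ← integral_neg_eq_self]
  congr 1
  funext t
  rw [bs_neg]
  simp only [smul_eq_mul, map_mul, ← exp_conj, bs_apply, conj_ofReal, conj_I]
  simp

lemma fbs_neg (x : ℝ) : 𝓕 (bs : ℝ → ℂ) (-x) = 𝓕 (bs : ℝ → ℂ) x := by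
  rw [Real.fourier_eq', Real.fourier_eq', ← integral_neg_eq_self]
  congr 1
  funext t
  rw [bs_neg]
  simp

/-- The square of the Fourier transform of the bump. -/
def kr (x : ℝ) : ℝ := ((𝓕 (bs : ℝ → ℂ) x).re) ^ 2

lemma fcs_real (x : ℝ) : 𝓕 (cs : ℝ → ℂ) x = (kr x : ℂ) := by
  rw [fcs, fbs_real, kr]
  norm_cast

lemma cr_nonneg (y : ℝ) : 0 ≤ cr y :=
  integral_nonneg fun _ => mul_nonneg bmp.nonneg bmp.nonneg

lemma cr_smooth : ContDiff ℝ ∞ cr := by
  have h : cr = fun y => (cs y).re := by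
    funext y
    rw [cs_real, ofReal_re]
  rw [h]
  exact reCLM.contDiff.comp (cs.smooth ⊤)

lemma cr_even (y : ℝ) : cr (-y) = cr y := by
  rw [cr, cr, ← integral_neg_eq_self]
  congr 1
  funext t
  rw [bmp.neg, show -y - -t = -(y - t) by ring, bmp.neg]

lemma cr_supp {y : ℝ} (hy : 4 ≤ |y|) : cr y = 0 := by
  rw [cr]
  have h : ∀ t : ℝ, bmp t * bmp (y - t) = 0 := by
    intro t
    by_contra hne
    have h1 : bmp t ≠ 0 := fun h => hne (by rw [h, zero_mul])
    have h2 : bmp (y - t) ≠ 0 := fun h => hne (by rw [h, mul_zero])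
    have h1' : t ∈ Function.support bmp := h1
    have h2' : y - t ∈ Function.support bmp := h2
    rw [bmp.support_eq, Metric.mem_ball, dist_zero_right, Real.norm_eq_abs] at h1' h2'
    have h3 : bmp.rOut = 2 := rfl
    rw [h3] at h1' h2'
    have h4 : |y| ≤ |t| + |y - t| := by
      calc |y| = |t + (y - t)| := by ring_nf
        _ ≤ _ := abs_add_le _ _
    linarith
  simp_rw [h]
  simp

lemma cr_zero_pos : 0 < cr 0 := by
  rw [cr]
  have hc : Continuous fun t : ℝ => bmp t * bmp (0 - t) :=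
    bmp.continuous.mul (bmp.continuous.comp (by fun_prop))
  have hs : HasCompactSupport fun t : ℝ => bmp t * bmp (0 - t) := bmp.hasCompactSupport.mul_right
  refine hc.integral_pos_of_hasCompactSupport_nonneg_nonzero hs
    (fun t => mul_nonneg bmp.nonneg bmp.nonneg) (x := 0) ?_
  have h1 : bmp (0 : ℝ) = 1 := bmp.one_of_mem_closedBall (by
    rw [Metric.mem_closedBall, dist_self]; exact bmp.rIn_pos.le)
  rw [sub_zero, h1]
  norm_num

lemma kr_nonneg (x : ℝ) : 0 ≤ kr x := sq_nonneg _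

lemma kr_even (x : ℝ) : kr (-x) = kr x := by
  rw [kr, kr, fbs_neg]

/-- The kernel. -/
def kk (u : ℝ) : ℝ := kr (u / (2 * Real.pi)) / (2 * Real.pi * cr 0)

/-- Its Fourier transform. -/
def qq (y : ℝ) : ℝ := cr y / cr 0

lemma kr_eq (x : ℝ) : kr x = (𝓕 cs x).re := by
  have h := fcs_real x
  rw [← SchwartzMap.fourier_coe] at h
  rw [h, ofReal_re]

lemma kr_cont : Continuous kr := by
  have h : kr = fun x => (𝓕 cs x).re := funext kr_eq
  rw [h]
  exact continuous_re.comp (𝓕 cs).continuous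

lemma kr_decay (m : ℕ) : ∃ C : ℝ, ∀ x, (1 + |x|) ^ m * kr x ≤ C := by
  refine ⟨2 ^ m * (Finset.Iic (m, 0)).sup (fun m => SchwartzMap.seminorm ℝ m.1 m.2) (𝓕 cs), ?_⟩
  intro x
  have h := SchwartzMap.one_add_le_sup_seminorm_apply (𝕜 := ℝ) (m := (m, 0)) (k := m) (n := 0)
    le_rfl le_rfl (𝓕 cs) x
  rw [norm_iteratedFDeriv_zero] at h
  refine le_trans ?_ h
  rw [Real.norm_eq_abs]
  refine mul_le_mul_of_nonneg_left ?_ (by positivity)
  rw [kr_eq]
  exact (le_abs_self _).trans (abs_re_le_norm _)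

lemma kk_decay (m : ℕ) : ∃ C : ℝ, 0 < C ∧ ∀ u, (1 + |u|) ^ m * kk u ≤ C := by
  obtain ⟨C, hC⟩ := kr_decay m
  have hpi : 0 < 2 * Real.pi := by positivity
  have hC0 : 0 ≤ C := le_trans (mul_nonneg (by positivity) (kr_nonneg 0)) (hC 0)
  refine ⟨(2 * Real.pi) ^ m * C / (2 * Real.pi * cr 0) + 1, ?_, ?_⟩
  · have := cr_zero_pos
    positivity
  intro u
  have h1 := hC (u / (2 * Real.pi))
  have h2 : 1 + |u| ≤ (2 * Real.pi) * (1 + |u / (2 * Real.pi)|) := by
    rw [abs_div, abs_of_pos hpi, mul_add, mul_div_cancel₀ _ hpi.ne']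
    have := Real.two_le_pi
    linarith
  have h3 : (1 + |u|) ^ m ≤ (2 * Real.pi) ^ m * (1 + |u / (2 * Real.pi)|) ^ m := by
    rw [← mul_pow]
    exact pow_le_pow_left₀ (by positivity) h2 m
  have h4 : (1 + |u|) ^ m * kk u ≤ (2 * Real.pi) ^ m * C / (2 * Real.pi * cr 0) := by
    rw [kk, mul_div_assoc']
    refine div_le_div_of_nonneg_right ?_ (mul_pos hpi cr_zero_pos).le
    calc (1 + |u|) ^ m * kr (u / (2 * Real.pi))
        ≤ ((2 * Real.pi) ^ m * (1 + |u / (2 * Real.pi)|) ^ m) * kr (u / (2 * Real.pi)) :=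
          mul_le_mul_of_nonneg_right h3 (kr_nonneg _)
      _ = (2 * Real.pi) ^ m * ((1 + |u / (2 * Real.pi)|) ^ m * kr (u / (2 * Real.pi))) := by ring
      _ ≤ (2 * Real.pi) ^ m * C := mul_le_mul_of_nonneg_left h1 (by positivity)
  linarith

lemma kk_nonneg (u : ℝ) : 0 ≤ kk u :=
  div_nonneg (kr_nonneg _) (mul_pos (by positivity) cr_zero_pos).le

lemma kk_cont : Continuous kk := by
  unfold kk
  exact (kr_cont.comp (by fun_prop)).div_const _

lemma kk_even (u : ℝ) : kk (-u) = kk u := by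
  rw [kk, kk, neg_div, kr_even]

lemma kk_integrable (m : ℕ) : Integrable fun u : ℝ => (1 + |u|) ^ m * kk u := by
  obtain ⟨C, _, hC⟩ := kk_decay (m + 2)
  have hb : Integrable fun u : ℝ => C * (1 + |u|) ^ (-(2 : ℝ)) := by
    have h := (integrable_one_add_norm (E := ℝ) (μ := volume) (r := 2) (by simp)).const_mul C
    simpa [Real.norm_eq_abs] using h
  refine hb.mono' ((by fun_prop : Continuous fun u : ℝ => (1 + |u|) ^ m).mul
    kk_cont).aestronglyMeasurable (Filter.Eventually.of_forall fun u => ?_)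
  have hp : 0 < 1 + |u| := by positivity
  rw [Real.norm_eq_abs, abs_of_nonneg (mul_nonneg (by positivity) (kk_nonneg u))]
  rw [Real.rpow_neg hp.le, ← div_eq_mul_inv, le_div_iff₀ (by positivity)]
  have h := hC u
  rw [show ((2 : ℝ)) = ((2 : ℕ) : ℝ) by norm_num, Real.rpow_natCast]
  calc (1 + |u|) ^ m * kk u * (1 + |u|) ^ 2 = (1 + |u|) ^ (m + 2) * kk u := by ring
    _ ≤ C := h

/-- Fourier inversion for the kernel. -/
lemma kk_fourier (y : ℝ) : ∫ u : ℝ, (kk u : ℂ) * exp (I * (y * u : ℝ)) = (qq y : ℂ) := by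
  have hpi : (0 : ℝ) < 2 * Real.pi := by positivity
  have h0 : 𝓕⁻ (𝓕 cs) y = cs y := by simp
  rw [SchwartzMap.fourierInv_coe, Real.fourierInv_eq'] at h0
  have h1 : ∀ x : ℝ, 𝓕 cs x = (kr x : ℂ) := fun x => by
    rw [SchwartzMap.fourier_coe, fcs_real]
  simp_rw [h1] at h0
  have h2 := MeasureTheory.Measure.integral_comp_div (fun x : ℝ =>
    cexp ((2 * Real.pi * (inner ℝ x y) : ℝ) * I) • (kr x : ℂ)) (2 * Real.pi)
  rw [h0, abs_of_pos hpi] at h2
  have h3 : ∀ u : ℝ, (kk u : ℂ) * exp (I * (y * u : ℝ)) = (1 / (2 * Real.pi * cr 0 : ℝ) : ℂ) *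
      (cexp ((2 * Real.pi * (inner ℝ (u / (2 * Real.pi)) y) : ℝ) * I) •
        (kr (u / (2 * Real.pi)) : ℂ)) := by
    intro u
    have e1 : I * ((y * u : ℝ) : ℂ) = (2 * Real.pi * (inner ℝ (u / (2 * Real.pi)) y) : ℝ) * I := by
      have : 2 * Real.pi * (inner ℝ (u / (2 * Real.pi)) y) = y * u := by
        rw [real_inner_eq_re_inner, RCLike.inner_apply]
        simp
        field_simp
      rw [this, mul_comm]
    rw [e1, kk, smul_eq_mul, ofReal_div]
    ring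
  simp_rw [h3]
  rw [integral_const_mul, h2, cs_real, qq]
  have hc : (cr 0 : ℂ) ≠ 0 := by exact_mod_cast cr_zero_pos.ne'
  have hp : (Real.pi : ℂ) ≠ 0 := by exact_mod_cast Real.pi_ne_zero
  rw [real_smul]
  push_cast
  field_simp

/-- Fourier inversion for the kernel. -/
lemma kk_eq (u : ℝ) : (kk u : ℂ) = (1 / (2 * Real.pi) : ℂ) *
    ∫ y : ℝ, (qq y : ℂ) * exp (-(I * (y * u : ℝ))) := by
  have h0 := fcs_real (u / (2 * Real.pi))
  rw [Real.fourier_eq'] at h0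
  have h3 : ∀ y : ℝ, (qq y : ℂ) * exp (-(I * (y * u : ℝ))) = (1 / (cr 0 : ℝ) : ℂ) *
      (cexp ((-2 * Real.pi * (inner ℝ y (u / (2 * Real.pi))) : ℝ) * I) • cs y) := by
    intro y
    have e1 : -(I * ((y * u : ℝ) : ℂ)) =
        (-2 * Real.pi * (inner ℝ y (u / (2 * Real.pi))) : ℝ) * I := by
      have : -2 * Real.pi * (inner ℝ y (u / (2 * Real.pi))) = -(y * u) := by
        rw [real_inner_eq_re_inner, RCLike.inner_apply]
        simp
        field_simp
      rw [this]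
      push_cast
      ring
    rw [e1, qq, smul_eq_mul, cs_real, ofReal_div]
    ring
  simp_rw [h3]
  rw [integral_const_mul, h0, kk]
  push_cast
  field_simp

/-- **N2.** -/
theorem kernel : ∃ (k q : ℝ → ℝ) (B : ℝ), 0 < B ∧
    (∀ u, 0 ≤ k u) ∧ Continuous k ∧ (∀ u, k (-u) = k u) ∧
    (∀ m : ℕ, Integrable fun u : ℝ => (1 + |u|) ^ m * k u) ∧
    (∀ m : ℕ, ∃ C : ℝ, 0 < C ∧ ∀ u, (1 + |u|) ^ m * k u ≤ C) ∧
    ContDiff ℝ ∞ q ∧ (∀ y, q (-y) = q y) ∧ (∀ y, 0 ≤ q y) ∧ (∀ y, q y ≤ 1) ∧ q 0 = 1 ∧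
    (∀ y, B ≤ |y| → q y = 0) ∧
    (∀ y : ℝ, ∫ u : ℝ, (k u : ℂ) * exp (I * (y * u : ℝ)) = (q y : ℂ)) ∧
    (∀ u : ℝ, (k u : ℂ) = (1 / (2 * Real.pi) : ℂ) *
      ∫ y : ℝ, (q y : ℂ) * exp (-(I * (y * u : ℝ)))) ∧
    (∫ u : ℝ, k u = 1) := by
  have hk0 : Integrable kk := by simpa using kk_integrable 0
  have hq0 : qq 0 = 1 := div_self cr_zero_pos.ne'
  have hone : ∫ u : ℝ, kk u = 1 := by
    have h := kk_fourier 0
    simp only [zero_mul, ofReal_zero, mul_zero, exp_zero, mul_one, hq0] at h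
    have h2 : (∫ u : ℝ, (kk u : ℂ)) = ((∫ u : ℝ, kk u : ℝ) : ℂ) := integral_ofReal
    rw [h2] at h
    exact_mod_cast h
  refine ⟨kk, qq, 4, by norm_num, kk_nonneg, kk_cont, kk_even, kk_integrable, kk_decay,
    cr_smooth.div_const _, fun y => by rw [qq, qq, cr_even],
    fun y => div_nonneg (cr_nonneg y) cr_zero_pos.le, ?_, hq0,
    fun y hy => by rw [qq, cr_supp hy, zero_div], kk_fourier, kk_eq, hone⟩
  intro y
  have h := kk_fourier y
  have h1 : ‖(qq y : ℂ)‖ ≤ ∫ u : ℝ, kk u := by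
    rw [← h]
    refine norm_integral_le_of_norm_le hk0 (Filter.Eventually.of_forall fun u => ?_)
    rw [norm_mul, mul_comm I, norm_exp_ofReal_mul_I, mul_one, norm_real, Real.norm_eq_abs,
      abs_of_nonneg (kk_nonneg u)]
  rw [hone, norm_real, Real.norm_eq_abs] at h1
  exact (le_abs_self _).trans h1

end

end Pool.Agent.Helper41.HG
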